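import Pool.Agent.Q54.CU.TB
import Pool.Agent.Q54.CU.Cubs

/-!
# The Tate-Beilinson conjecture in characteristic `p` and one sequence of cubic hypersurfaces

Let `k` be the prime field with `p` elements, and let `E_n` (`cubS k n`) be the cubic hypersurface
`∑_s ∑_{(i, j, l) ∈ s} x_{s,i} y_{s,j} z_{s,l} = 1` over `k`, where `s` runs over all subsets of
`{0, …, n - 1}³`; it is smooth over `k`. For a separated scheme `X` of finite type over `k` let
`TB(X)` be the statement that the regulators
`CH_j(X, i - 2 j) ⊗ ℚ_ℓ → H_i(X_{k̄}, ℚ_ℓ(j))^G` are bijective and that the eigenvalue `1` of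
Frobenius is semisimple, for all `i` and `j`. We show that `TB(E_n)` for infinitely many `n` implies
`TB(X)` for all `X`; in particular it implies the Tate conjecture in all codimensions for all smooth
proper varieties in characteristic `p`, with the semisimplicity and the injectivity of the cycle class
maps modulo torsion.
-/

namespace Pool.Agent.Results.MP_81632f_ag.OneSequenceOfCubics

open Q54.CU CategoryTheory AlgebraicGeometry Pool.Agent.Y116.UV Pool.Agent.Z125.UN
open scoped TensorProduct

variable {k K : Type} [Field k] [Field K]

/-- For affine schemes `X` and `Y` of finite type over `k`, with `Y` nonempty, there is a `d` (the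
dimension of a component of `Y`) such that `H_i(X, j)` is a direct summand of
`H_{i + 2 d}(X × Y, j + d)`: exterior product with the class of the component, followed by the
restriction to `X × y` and the direct image to `X`, for a smooth closed point `y`, is the
multiplication by the degree of `y`. -/
def HasProducts (D : ℤ → ℤ → Sch k → RegMod K) : Prop :=
  ∀ (A B : Type) [CommRing A] [CommRing B] [Algebra k A] [Algebra k B] [Algebra.FiniteType k A]
    [Algebra.FiniteType k B] [Nontrivial B], ∃ d : ℕ, ∀ i j : ℤ,
      RegSummand (D i j (aff k A)) (D (i + 2 * d) (j + d) (aff k (A ⊗[k] B)))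

/-- Every Frobenius invariant class is in the image of the regulator. -/
def Onto (M : RegMod K) : Prop := ∀ x, M.F x = x → ∃ a, M.reg a = x

/-- The eigenvalue `1` of Frobenius is semisimple. -/
def SemisimpleAtOne (M : RegMod K) : Prop := ∀ x, InGen M.F x → M.F x = x

/-- The conjectures for the variety `V`: for all `j`, all Frobenius invariant classes in
`H_{2 j}(V, j)` are linear combinations of classes of algebraic cycles (the conjecture of Tate), the
eigenvalue `1` of Frobenius is semisimple, and the cycle class map is injective modulo torsion. -/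
structure TateBeilinson (D : ℤ → ℤ → Sch k → RegMod K) (V : Sch k) : Prop where
  tate : ∀ j : ℤ, Onto (D (2 * j) j V)
  semisimple : ∀ j : ℤ, SemisimpleAtOne (D (2 * j) j V)
  injective : ∀ j : ℤ, Function.Injective (D (2 * j) j V).reg

/-- The conjectures for all smooth proper varieties over `k`. -/
def TateBeilinsonAll (D : ℤ → ℤ → Sch k → RegMod K) : Prop :=
  ∀ V : Sch k, IsProper V.hom → Smooth V.hom → TateBeilinson D V

/-- `TB` for all separated schemes of finite type over `k`. -/
def TBAll (D : ℤ → ℤ → Sch k → RegMod K) : Prop :=
  ∀ X : Sch k, FT True X → TB D X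

/-- `TB` for infinitely many hypersurfaces `E_n`. -/
def TBInfinitelyMany (D : ℤ → ℤ → Sch k → RegMod K) : Prop :=
  {n : ℕ | TB D (cubS k n)}.Infinite

/-- **The Tate-Beilinson conjecture and one sequence of cubic hypersurfaces.** -/
theorem result [Finite k] (hk : Function.Surjective (Int.cast : ℤ → k))
    (D : ℤ → ℤ → Sch k → RegMod K) (hD : IsRegulators D) (hp : HasProducts D)
    (point : TB D (aff k k)) :
    (TBInfinitelyMany D ↔ TBAll D) ∧
    (TBInfinitelyMany D → TateBeilinsonAll D) ∧
    ((TateBeilinsonAll D → TBAll D) → (TateBeilinsonAll D ↔ TBInfinitelyMany D)) ∧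
    ∀ n : ℕ, FT True (cubS k n) ∧ Smooth (cubS k n).hom := by
  have hB : Bnd True (TB D) := bnd_tb hD point
  have hQ : FromProducts (TB D) := by
    intro A B _ _ _ _ _ _ _ h i j
    obtain ⟨d, hd⟩ := hp A B
    exact isTB_of_summand (hd i j) (h _ _)
  have hft : ∀ n : ℕ, FT True (cubS k n) := fun n => ft_aff True
  have h1 : TBInfinitelyMany D ↔ TBAll D := by
    constructor
    · intro h X hX
      exact of_infinite hB hQ hk h X hX
    · intro h
      have h2 : {n : ℕ | TB D (cubS k n)} = Set.univ :=
        Set.eq_univ_iff_forall.2 fun n => h _ (hft n)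
      unfold TBInfinitelyMany
      rw [h2]
      exact Set.infinite_univ
  have h2 : TBInfinitelyMany D → TateBeilinsonAll D := by
    intro h V hV _
    have hV2 : FT True V := ⟨inferInstance, inferInstance, fun _ => inferInstance⟩
    have h3 := h1.1 h V hV2
    exact ⟨fun j => (h3 (2 * j) j).surj, fun j => (h3 (2 * j) j).semisimple,
      fun j => (h3 (2 * j) j).inj⟩
  exact ⟨h1, h2, fun h => ⟨fun h3 => h1.2 (h h3), h2⟩, fun n => ⟨hft n, smooth_cubS n⟩⟩

end Pool.Agent.Results.MP_81632f_ag.OneSequenceOfCubics
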