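import Pool.Agent.Q45.GM.Dpg
import Pool.Agent.Q45.GM.Prod2
import Pool.Agent.Q151.GM.LIN9

/-!
# Products of double planes and the branch curves modulo `2`

Let `k` be a field of characteristic different from `2`, with separable closure `k'`, and let
`P_i(t, x)` be a family of polynomials over `k`, monic of odd degree in `x`, such that the plane curves
`C_i : P_i(t, x) = 0` are smooth, irreducible over `k'` and separable over the `t`-line. Let `U_i` be the
affine surface `w ^ 2 = P_i(t, x)`, `J_i` the Jacobian of the hyperelliptic curve `w ^ 2 = P_i(t, x)` over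
`K = k(t)`, `F = k'(t)`, and `M_i` the `ℤ_2`-module of the classes of the continuous cocycles of
`Gal(Sep F / F)` with values in the Tate module `T_2 J_i` which are locally trivial at all the maximal
ideals of `k'[t]`.

Let `S_i` be the ring of the functions on `C_i` over `k'`, `L_i` its field of fractions, and `W_i` the
group of the elements of `L_iˣ` whose fractional ideal is a square, modulo the squares; if `C_i` has a
single place at infinity then `W_i` is the group of the points of order `2` of the Jacobian of `C_i`.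

Let `T` be an automorphism of the separable closure of `F` over `K`, and `e_i` the automorphism of
`L_i` over `k(t, x)` with the same effect `τ` on the constants in `k'`; if `k` is finite with `q`
elements and `τ c = c ^ q` these are the Frobenius automorphisms. Let `V_i` be a finite dimensional vector
space over `𝔽_2` which contains `W_i`, and `E_i` an endomorphism of `V_i` which induces the action of
`e_i` on `W_i`.

(1) If no product of roots of the characteristic polynomials of the `E_i`, with `i` in a nonempty finite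
set, is equal to `1` in a field of characteristic `2`, then no product of eigenvalues of the actions of
`T` on the `M_i`, with `i` in a nonempty finite set, is equal to `1`.

(2) If the characteristic polynomials of the `E_i` are separable, and the products of roots of them in
fields of characteristic `2` are different for different finite sets of indices or different roots, the
same holds for the eigenvalues of `T` on the `M_i`.
-/

set_option autoImplicit false
set_option linter.all false

open Polynomial IsDedekindDomain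
open scoped Classical nonZeroDivisors

namespace Pool.Agent.Results.MP_81632f_ag.ProductsOfDoublePlanes

open Pool.Agent.Y160.SL
open Pool.Agent.TH115.GD (rs ak Sep Comp)

section lin

/-- `α` is an eigenvalue of `φ` in the extension `E` of `ℤ_2`. -/
def IsEigenvalue {M : Type} [AddCommGroup M] [Module ℤ_[2] M] [Module.Finite ℤ_[2] M]
    [Module.Free ℤ_[2] M] (φ : M →ₗ[ℤ_[2]] M) {E : Type} [Field E] [Algebra ℤ_[2] E] (α : E) : Prop :=
  aeval α φ.charpoly = 0

/-- The elements of the field `Ω` with the property `R i`, for `i` in a nonempty finite set `S` of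
indices, never have product `1`. -/
def ProductsNeOne {ι Ω : Type} [Field Ω] (R : ι → Ω → Prop) : Prop :=
  ∀ (S : Finset ι) (α : ι → Ω), S.Nonempty → (∀ i ∈ S, R i (α i)) → ∏ i ∈ S, α i ≠ 1

/-- The products of elements of the field `Ω` with the property `R i`, for `i` in a finite set `S` of
indices, are different for different sets or different elements. -/
def ProductsDistinct {ι Ω : Type} [Field Ω] (R : ι → Ω → Prop) : Prop :=
  ∀ (S S' : Finset ι) (α β : ι → Ω), (∀ i ∈ S, R i (α i)) → (∀ i ∈ S', R i (β i)) →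
    ∏ i ∈ S, α i = ∏ i ∈ S', β i → S = S' ∧ ∀ i ∈ S, α i = β i

end lin

/-- The derivative with respect to `t` of the polynomial `P(t, x)` in `k[t][x]`. -/
noncomputable def derivT {k : Type} [Field k] (P : k[X][X]) : k[X][X] :=
  P.sum fun i a => C (derivative a) * X ^ i

/-- The conditions on the curve `P(t, x) = 0` over `k`: `P` is monic of odd degree in `x`, the curve is
smooth and separable over the `t`-line. -/
structure IsSmoothCurve {k : Type} [Field k] (P : k[X][X]) : Prop where
  two : (2 : k) ≠ 0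
  monic : P.Monic
  odd : Odd P.natDegree
  separable : derivative P ≠ 0
  smooth : ∃ a₁ a₂ a₃ : k[X][X], a₁ * P + a₂ * derivative P + a₃ * derivT P = 1

/-- The polynomial `P(t, x)` over `k'`. -/
noncomputable def extendPoly {k : Type} [Field k] (k' : Type) [Field k'] [Algebra k k']
    (P : k[X][X]) : k'[X][X] := P.map (mapRingHom (algebraMap k k'))

/-- The ring of the functions on the curve `P(t, x) = 0` over `k'`. -/
abbrev CurveRing {k : Type} [Field k] (k' : Type) [Field k'] [Algebra k k'] (P : k[X][X]) : Type :=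
  AdjoinRoot (extendPoly k' P)

/-- The polynomial `P(t, x)` over the field `K` which contains `k[t]`. -/
noncomputable def fPoly {k : Type} [Field k] (P : k[X][X]) (K : Type) [Field K] [Algebra k[X] K] :
    K[X] := P.map (algebraMap k[X] K)

section curve

/-- The elements of `Lˣ` whose fractional ideal is a square. -/
def evenGroup (S L : Type) [CommRing S] [IsDedekindDomain S] [Field L] [Algebra S L]
    [IsFractionRing S L] : Subgroup Lˣ where
  carrier := {z | ∃ I : FractionalIdeal S⁰ L, FractionalIdeal.spanSingleton S⁰ (z : L) = I ^ 2}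
  mul_mem' := (Pool.Agent.Q45.GM.evS S L).mul_mem'
  one_mem' := (Pool.Agent.Q45.GM.evS S L).one_mem'
  inv_mem' := (Pool.Agent.Q45.GM.evS S L).inv_mem'

/-- The squares. -/
def squares (L : Type) [Field L] : Subgroup Lˣ := (powMonoidHom 2 : Lˣ →* Lˣ).range

variable {k : Type} [Field k] (k' : Type) [Field k'] [Algebra k k'] (P : k[X][X])
  (L : Type) [Field L] [Algebra (CurveRing k' P) L]

/-- The automorphism `e` of `L` fixes the polynomials in `t` and `x` over `k`. -/
def FixesPolys (e : L ≃+* L) : Prop :=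
  ∀ p : k[X][X], e (algebraMap (CurveRing k' P) L (AdjoinRoot.mk _ (extendPoly k' p))) =
    algebraMap (CurveRing k' P) L (AdjoinRoot.mk _ (extendPoly k' p))

/-- The automorphism `e` of `L` maps the constant `c` in `k'` to `τ c`. -/
def HasConstants (e : L ≃+* L) (τ : k' → k') : Prop :=
  ∀ c : k', e (algebraMap (CurveRing k' P) L (AdjoinRoot.of _ (C c))) =
    algebraMap (CurveRing k' P) L (AdjoinRoot.of _ (C (τ c)))

end curve

/-- The vector space `V` over `𝔽_2` contains the quotient `Ev / Sq`, through the map `cl`, and the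
endomorphism `E` of `V` induces the action of `e` on it. -/
structure IsModTwo {H : Type} [CommGroup H] (Sq Ev : Subgroup H) (e : H →* H) {V : Type}
    [AddCommGroup V] [Module (ZMod 2) V] (cl : H → V) (E : V →ₗ[ZMod 2] V) : Prop where
  add : ∀ z ∈ Ev, ∀ w ∈ Ev, cl (z * w) = cl z + cl w
  zero : ∀ z ∈ Ev, cl z = 0 ↔ z ∈ Sq
  act : ∀ z ∈ Ev, cl (e z) = E (cl z)

/-- (1) for the endomorphisms `φ i`: if no product of roots modulo `2` of the `Q i` is `1`, then no product
of eigenvalues of the `φ i` is `1`. (2) The same for distinct products. -/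
def EigenvalueProducts {ι : Type} (Q : ι → (ZMod 2)[X]) (M : ι → Type) [∀ i, AddCommGroup (M i)]
    [∀ i, Module ℤ_[2] (M i)] [∀ i, Module.Finite ℤ_[2] (M i)] [∀ i, Module.Free ℤ_[2] (M i)]
    (φ : ∀ i, M i →ₗ[ℤ_[2]] M i) : Prop :=
  ((∀ (Ω : Type) [Field Ω] [Algebra (ZMod 2) Ω], ProductsNeOne fun i (γ : Ω) => aeval γ (Q i) = 0) →
    ∀ (E : Type) [Field E] [Algebra ℤ_[2] E], ProductsNeOne fun i (α : E) => IsEigenvalue (φ i) α) ∧
  ((∀ i, (Q i).Separable) →
    (∀ (Ω : Type) [Field Ω] [Algebra (ZMod 2) Ω],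
      ProductsDistinct fun i (γ : Ω) => aeval γ (Q i) = 0) →
    (∀ i, (φ i).charpoly.Separable) ∧
      ∀ (E : Type) [Field E] [Algebra ℤ_[2] E], ProductsDistinct fun i (α : E) => IsEigenvalue (φ i) α)

section gen

variable {K F Ω : Type} [Field K] [Field F] [Field Ω] [Algebra K F] [Algebra F Ω] [Algebra K Ω]
  [IsScalarTower K F Ω] (f : K[X])

/-- The sequences of cochains of `Gal(Ω / F)` with values in `J(Ω)`. -/
abbrev Cochain (F Ω : Type) [Field F] [Field Ω] [Algebra K Ω] [Algebra F Ω] (f : K[X]) : Type :=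
  ℕ → (Ω ≃ₐ[F] Ω) → Jac 2 f Ω

/-- `c` is the coboundary of an element `R` of the Tate module `T_2 J`. -/
def IsTateCoboundary (c : Cochain F Ω f) : Prop :=
  ∃ R : ℕ → Jac 2 f Ω, IsTM 2 2 f R ∧ ∀ n, IsCobOf 2 f (c n) (R n)

/-- The map `κ` identifies with `M` the group of the classes of the cocycles with the property `P`:
it is additive and surjective on these cocycles, and `κ c = 0` if and only if `c` is the coboundary of
an element of the Tate module. -/
structure IsClassMap (P : Cochain F Ω f → Prop) (M : Type) [AddCommGroup M]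
    (κ : Cochain F Ω f → M) : Prop where
  surj : ∀ m, ∃ c, P c ∧ κ c = m
  add : ∀ c d, P c → P d → κ (c + d) = κ c + κ d
  zero : ∀ c, P c → (κ c = 0 ↔ IsTateCoboundary f c)

/-- `d` is the transform of the cochain `c` by the automorphism `T` of `Ω` over `K`:
`d (σ) = T (c (σ'))`, where `σ' = T⁻¹ σ T`. -/
def IsTransform (T : Ω ≃ₐ[K] Ω) (c d : Cochain F Ω f) : Prop :=
  ∀ n (σ σ' : Ω ≃ₐ[F] Ω), (∀ x, T (σ' x) = σ (T x)) → d n σ = jm 2 f (ak T) (c n σ')

/-- The endomorphism `φ` of `M` is induced by the automorphism `T` of `Ω` over `K`. -/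
def IsInduced (P : Cochain F Ω f → Prop) {M : Type} (κ : Cochain F Ω f → M) (T : Ω ≃ₐ[K] Ω)
    (φ : M → M) : Prop :=
  ∀ c d, P c → IsTransform f T c d → P d ∧ κ d = φ (κ c)

end gen

section sel

variable {K F : Type} [Field K] [Field F] [Algebra K F] (B : Type) [CommRing B] [IsDedekindDomain B]
  [Algebra B F] [IsFractionRing B F] (f : K[X])

/-- The restriction of the cochain `c` to the completion of `F` at every maximal ideal of the Dedekind
domain `B` with field of fractions `F` is a coboundary. -/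
def IsSelmer (c : (Sep F ≃ₐ[F] Sep F) → Jac 2 f (Sep F)) : Prop :=
  ∀ v : HeightOneSpectrum B, LocTriv 2 f (Comp B F v) (Sep (Comp B F v)) c

/-- `c` is a continuous cocycle of `Gal(Sep F / F)` with values in the Tate module `T_2 J` which is
locally trivial at all the maximal ideals of the Dedekind domain `B` with field of fractions `F`; its
component with values in `J[2 ^ n]` is `c n`. -/
def IsSelmerCocycle (c : Cochain F (Sep F) f) : Prop :=
  IsTC 2 2 f c ∧ ∀ n, IsSelmer B f (c n)

/-- The automorphism `T` of `Sep F` over `K` acts on the module of the classes as `φ`. -/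
def ActsAs {M : Type} [AddCommGroup M] [Module ℤ_[2] M] (κ : Cochain F (Sep F) f → M)
    (T : Sep F ≃ₐ[K] Sep F) (φ : M →ₗ[ℤ_[2]] M) : Prop :=
  IsInduced f (IsSelmerCocycle B f) κ T φ

/-- The automorphism `T` of `Sep F` over `K` maps the constant `c` in `k'` to `τ c`. -/
def ActsOnConstants {k' : Type} [Field k'] [Algebra k'[X] F] (T : Sep F ≃ₐ[K] Sep F) (τ : k' → k') :
    Prop :=
  ∀ c : k', T (algebraMap F (Sep F) (algebraMap k'[X] F (C c))) =
    algebraMap F (Sep F) (algebraMap k'[X] F (C (τ c)))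

end sel

section fam

variable {ι K F : Type} [Field K] [Field F] [Algebra K F] (B : Type) [CommRing B] [IsDedekindDomain B]
  [Algebra B F] [IsFractionRing B F] (f : ι → K[X])

/-- The modules `M i` of the classes are free of finite rank. There are automorphisms `T` with the
property `R`; each of them acts on the `M i` as endomorphisms `φ i` whose eigenvalues have the property
above. -/
def Concl (R : (Sep F ≃ₐ[K] Sep F) → Prop) (Q : ι → (ZMod 2)[X]) : Prop :=
  ∃ (M : ι → Type) (_ : ∀ i, AddCommGroup (M i)) (_ : ∀ i, Module ℤ_[2] (M i))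
    (_ : ∀ i, Module.Finite ℤ_[2] (M i)) (_ : ∀ i, Module.Free ℤ_[2] (M i))
    (κ : ∀ i, Cochain F (Sep F) (f i) → M i),
    (∀ i, IsClassMap (f i) (IsSelmerCocycle B (f i)) (M i) (κ i)) ∧ (∃ T, R T) ∧
    ∀ T : Sep F ≃ₐ[K] Sep F, R T → ∃ φ : ∀ i, M i →ₗ[ℤ_[2]] M i,
      (∀ i, ActsAs B (f i) (κ i) T (φ i)) ∧ EigenvalueProducts Q M φ

end fam

/-- The statement. -/
def Main : Prop :=
  ∀ (ι k k' K F : Type) [Nonempty ι] [Field k] [Field k'] [Algebra k k'] [IsSepClosure k k'] [Field K]
    [Algebra k[X] K] [IsFractionRing k[X] K] [Field F] [Algebra k'[X] F] [IsFractionRing k'[X] F]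
    [Algebra K F] (L V : ι → Type) (P : ι → k[X][X]) [∀ i, IsDedekindDomain (CurveRing k' (P i))]
    [∀ i, Field (L i)] [∀ i, Algebra (CurveRing k' (P i)) (L i)]
    [∀ i, IsFractionRing (CurveRing k' (P i)) (L i)] [∀ i, AddCommGroup (V i)]
    [∀ i, Module (ZMod 2) (V i)] [∀ i, Module.Finite (ZMod 2) (V i)] (e : ∀ i, L i ≃+* L i)
    (τ : k' → k') (cl : ∀ i, (L i)ˣ → V i) (E : ∀ i, V i →ₗ[ZMod 2] V i),
    (∀ p : k[X], algebraMap K F (algebraMap k[X] K p) =
      algebraMap k'[X] F (p.map (algebraMap k k'))) →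
    (∀ i, IsSmoothCurve (P i)) → (∀ i, FixesPolys k' (P i) (L i) (e i)) →
    (∀ i, HasConstants k' (P i) (L i) (e i) τ) →
    (∀ i, IsModTwo (squares (L i)) (evenGroup (CurveRing k' (P i)) (L i))
      (Units.map ((e i : L i ≃+* L i) : L i →* L i)) (cl i) (E i)) →
      Concl (F := F) k'[X] (fun i => fPoly (P i) K) (fun T => ActsOnConstants T τ)
        (fun i => (E i).charpoly)

open Pool.Agent.Q45.GM (SelT clsOf clsOf_surj clsOf_add clsOf_zero rho rho_cls rho_mul isGeom_rat
  IsBr with_dp evS sqS Fixes FixP lift_e core_cong IsMod2 prod_ne prod_distinct)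

section conv

variable {K F : Type} [Field K] [Field F] [Algebra K F] {B : Type} [CommRing B] [IsDedekindDomain B]
  [Algebra B F] [IsFractionRing B F] {f : K[X]}

theorem toTC {c : Cochain F (Sep F) f} (h : IsTC 2 2 f c) : Pool.Agent.Y160.SQ.IsTC 2 2 f c :=
  ⟨fun n => ⟨(h.coc n).lc, (h.coc n).mul⟩, h.zero, h.step⟩

theorem ofTC {c : Cochain F (Sep F) f} (h : Pool.Agent.Y160.SQ.IsTC 2 2 f c) : IsTC 2 2 f c :=
  ⟨fun n => ⟨(h.coc n).lc, (h.coc n).mul⟩, h.zero, h.step⟩

/-- The classes of the cocycles. -/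
theorem classMap : IsClassMap f (IsSelmerCocycle B f) (SelT (F := F) 2 B f 2) (clsOf B f) where
  surj m := by
    obtain ⟨c, ⟨h1, h2⟩, h3⟩ := clsOf_surj B f m
    exact ⟨c, ⟨ofTC h1, h2⟩, h3⟩
  add c d hc hd := clsOf_add B f (toTC hc.1) hc.2 (toTC hd.1) hd.2
  zero c hc := by
    refine (clsOf_zero B f (toTC hc.1) hc.2).trans ⟨?_, ?_⟩
    · rintro ⟨R, hR, h⟩
      exact ⟨R, ⟨hR.zero, hR.step⟩, h⟩
    · rintro ⟨R, hR, h⟩
      exact ⟨R, ⟨hR.zero, hR.step⟩, h⟩

end conv


section acts

variable {k k' K F : Type} [Field k] [Field k'] [Algebra k k'] [IsSepClosed k']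
  [Algebra.IsSeparable k k'] [Field K] [Algebra k[X] K] [Field F] [Algebra k'[X] F] [Algebra K F]

theorem acts_iff [IsFractionRing k'[X] F] (hF' : Pool.Agent.Q45.TW.IsGeom k k' K F) (f : K[X])
    (T : Sep F ≃ₐ[K] Sep F)
    (φ : SelT (F := F) 2 k'[X] f 2 →ₗ[ℤ_[2]] SelT (F := F) 2 k'[X] f 2) :
    ActsAs k'[X] f (clsOf k'[X] f) T φ ↔ φ = rho k'[X] hF' f T := by
  constructor
  · intro h
    refine LinearMap.ext fun m => ?_
    obtain ⟨c, ⟨hc, hcs⟩, rfl⟩ := clsOf_surj k'[X] f m
    have hcj := Pool.Agent.Q45.GM.lf_T k'[X] hF' f T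
    have hd : IsTransform f T c (fun n σ => jm 2 f (ak T)
        (c n ((Pool.Agent.Q45.GM.lf k'[X] hF' f T).conj σ))) := by
      intro n σ σ' hσ
      have h5 : (Pool.Agent.Q45.GM.lf k'[X] hF' f T).conj σ = σ' := by
        refine AlgEquiv.ext fun x => T.injective ?_
        rw [hσ]
        have h6 := (Pool.Agent.Q45.GM.lf k'[X] hF' f T).T_conj σ x
        rwa [hcj] at h6
      have h8 : ∀ ρ : Sep F ≃ₐ[F] Sep F, ρ = σ' →
          jm 2 f (ak T) (c n ρ) = jm 2 f (ak T) (c n σ') := by
        rintro ρ rfl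
        rfl
      exact h8 _ h5
    have h7 := (h c _ ⟨ofTC hc, hcs⟩ hd).2
    rw [← h7]
    exact (rho_cls k'[X] hF' f T hc hcs hd).2
  · rintro rfl c d hc hd
    obtain ⟨⟨h4, h5⟩, h6⟩ := rho_cls k'[X] hF' f T (toTC hc.1) hc.2 hd
    exact ⟨⟨ofTC h4, h5⟩, h6⟩

end acts

/-- The part of the proof for each surface. -/
theorem one {k k' K F L V : Type} [Field k] [Field k'] [Algebra k k'] [hk' : IsSepClosure k k']
    [Field K] [Algebra k[X] K] [IsFractionRing k[X] K] [Field F] [Algebra k'[X] F]
    [IsFractionRing k'[X] F] [Algebra K F] [IsSepClosed k'] [Algebra.IsSeparable k k']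
    (P : k[X][X]) [IsDedekindDomain (CurveRing k' P)] [Field L]
    [Algebra (CurveRing k' P) L] [IsFractionRing (CurveRing k' P) L] [AddCommGroup V]
    [Module (ZMod 2) V] [Module.Finite (ZMod 2) V] (e : L ≃+* L) (τ : k' → k') (cl : Lˣ → V)
    (E : V →ₗ[ZMod 2] V)
    (hcomp : ∀ p : k[X], algebraMap K F (algebraMap k[X] K p) =
      algebraMap k'[X] F (p.map (algebraMap k k')))
    (hP : IsSmoothCurve P) (he : FixesPolys k' P L e) (hτ : HasConstants k' P L e τ)
    (hV : IsModTwo (squares L) (evenGroup (CurveRing k' P) L) (Units.map (e : L →* L)) cl E) :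
    (∃ T : Sep F ≃ₐ[K] Sep F, ActsOnConstants T τ) ∧
    ∃ (_ : Module.Finite ℤ_[2] (SelT (F := F) 2 k'[X] (fPoly P K) 2))
      (_ : Module.Free ℤ_[2] (SelT (F := F) 2 k'[X] (fPoly P K) 2)),
      ∀ T : Sep F ≃ₐ[K] Sep F, ActsOnConstants T τ →
        (rho k'[X] (isGeom_rat hcomp) (fPoly P K) T).charpoly.map (PadicInt.toZMod (p := 2)) ∣
          E.charpoly := by
  have hbr : IsBr P := ⟨hP.two, hP.monic, hP.odd, hP.separable, hP.smooth⟩
  have hF' := isGeom_rat (K := K) (F := F) hcomp
  refine with_dp (k' := k') (K := K) (F := F) hbr (Q := extendPoly k' P) rfl hcomp L ?_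
  intro _ _ _ _ _ _ _ _ _ _ hgd a θ hfld hff hm hreg hfix
  have hV' : IsMod2 (sqS L) (evS (CurveRing k' P) L) (Units.map (e : L →* L)) cl E :=
    ⟨hV.add, hV.zero, hV.act⟩
  have hfe : Fixes K θ e := (hfix e).1 he
  have hcon : ∀ x : k', algebraMap F L (algebraMap k'[X] F (C x)) =
      algebraMap (CurveRing k' P) L (AdjoinRoot.of _ (C x)) := by
    intro x
    rw [← IsScalarTower.algebraMap_apply k'[X] F L,
      IsScalarTower.algebraMap_apply k'[X] (CurveRing k' P) L]
    rfl
  have hTe : ∀ T : Sep F ≃ₐ[K] Sep F, ActsOnConstants T τ → ∀ x : k',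
      T (Pool.Agent.Q45.GM.cs k' F x) = algebraMap L (Sep F) (e (algebraMap F L
        (algebraMap k'[X] F (C x)))) := by
    intro T hT x
    rw [hcon, hτ x, ← hcon, ← IsScalarTower.algebraMap_apply F L (Sep F)]
    exact hT x
  obtain ⟨T₀, hT₀⟩ := lift_e (F := F) e hfe.1
  have hT₀' : ActsOnConstants (F := F) T₀ τ := by
    intro x
    have h1 := hT₀ (algebraMap F L (algebraMap k'[X] F (C x)))
    rw [← IsScalarTower.algebraMap_apply F L (Sep F), hcon, hτ x, ← hcon,
      ← IsScalarTower.algebraMap_apply F L (Sep F)] at h1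
    exact h1
  obtain ⟨h1, h2, _⟩ := core_cong (S := CurveRing k' P) k'[X] hgd Pool.Agent.Q151.GM.lin8 hF' hff
    hm hreg hfld e hfe hV' T₀ (hTe T₀ hT₀')
  refine ⟨⟨T₀, hT₀'⟩, h1, h2, fun T hT => ?_⟩
  obtain ⟨_, _, h5⟩ := core_cong (S := CurveRing k' P) k'[X] hgd Pool.Agent.Q151.GM.lin8 hF' hff hm
    hreg hfld e hfe hV' T (hTe T hT)
  exact h5

theorem eig_of {ι : Type} (Q : ι → (ZMod 2)[X]) (M : ι → Type) [∀ i, AddCommGroup (M i)]
    [∀ i, Module ℤ_[2] (M i)] [∀ i, Module.Finite ℤ_[2] (M i)] [∀ i, Module.Free ℤ_[2] (M i)]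
    (φ : ∀ i, M i →ₗ[ℤ_[2]] M i)
    (h : ∀ i, (φ i).charpoly.map (PadicInt.toZMod (p := 2)) ∣ Q i) : EigenvalueProducts Q M φ := by
  refine ⟨fun hne E _ _ S α hS hα => prod_ne h (fun κ _ _ S γ hS hγ => hne κ S γ hS hγ) E S α hS hα,
    fun hsep hdi => ⟨fun i => (Pool.Agent.Q45.GM.JLIN2.main 2 _ (φ i) ((hsep i).of_dvd (h i))).1,
      fun E _ _ S S' α β hα hβ hp => prod_distinct h hsep
        (fun κ _ _ S S' γ δ h1 h2 h3 => hdi κ S S' γ δ h1 h2 h3) E S S' α β hα hβ hp⟩⟩

theorem main : Main := by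
  intro ι k k' K F _ _ _ _ hk' _ _ _ _ _ _ _ L V P _ _ _ _ _ _ _ e τ cl E hcomp hP he hτ hV
  haveI : IsSepClosed k' := hk'.sep_closed
  haveI : Algebra.IsSeparable k k' := hk'.separable
  have h := fun i => one (K := K) (F := F) (P i) (e i) τ (cl i) (E i) hcomp (hP i) (he i) (hτ i)
    (hV i)
  choose hT0 h1 h2 h3 using h
  haveI i1 : ∀ i, Module.Finite ℤ_[2] (SelT (F := F) 2 k'[X] (fPoly (P i) K) 2) := h1
  haveI i2 : ∀ i, Module.Free ℤ_[2] (SelT (F := F) 2 k'[X] (fPoly (P i) K) 2) := h2
  have hF' := isGeom_rat (K := K) (F := F) hcomp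
  obtain ⟨i₀⟩ := ‹Nonempty ι›
  refine ⟨fun i => SelT (F := F) 2 k'[X] (fPoly (P i) K) 2, fun i => inferInstance,
    fun i => inferInstance, i1, i2,
    fun i => clsOf k'[X] (fPoly (P i) K), fun i => classMap, hT0 i₀, fun T hT =>
    ⟨fun i => rho k'[X] hF' (fPoly (P i) K) T,
      fun i => (acts_iff (K := K) (F := F) hF' (fPoly (P i) K) T _).2 rfl, ?_⟩⟩
  exact eig_of _ _ _ fun i => h3 i T hT

/-- **Products of double planes and the branch curves modulo `2`.** -/
theorem result : Main := main

end Pool.Agent.Results.MP_81632f_ag.ProductsOfDoublePlanes
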