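import Pool.Agent.Q59.TC.Sys

/-!
# Beilinson's and the semisimplicity conjecture for `Z × C ^ n`, `Z` arbitrary, `C` a random cover

Let `Z` be a smooth projective variety over the field `𝔽` with `q` elements, of characteristic `p`, and
let `G` be a finite group of order prime to `p`. Let `𝒮 → B` be a family of smooth projective curves of
genus `g ≥ 0` with disjoint sections `a_1, ..., a_r`, over a smooth geometrically connected scheme `B`
of finite type over `𝔽` which dominates the moduli space of `r`-pointed curves, and `𝒞 → 𝒮` a family of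
Galois covers with the group `G`, ramified only over the `a_j`, with ramification indices which divide
`N`. For a closed point `b` of `B` let `C` be the fibre of `𝒞` at `b`, a curve over the residue field of
`b`. We study, for all closed points `b` outside a set of density zero, the questions Q1 (the cycle map
from the rational Chow groups, with coefficients in `ℚ_ℓ`, to the invariants of the Galois group in
the `ℓ`-adic cohomology is bijective) and Q2 (the eigenvalue one of the Frobenius is semisimple) for the
varieties `Z × C ^ n` (over the residue field, or over a finite extension of it).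

**Local systems and Frobenius tori.** The notation is that of `MP_0f183b_ag.RandomCoversTimesVarieties`:
`H ^ 1 (C)` is the direct sum of the `χ ⊗ V_χ`, where `χ` runs through the irreducible representations of `G`
and `V_χ` is the first cohomology of a local system `L_χ` on the pointed curve `S`; `LocalSystems`
contains the numerical invariants of a finite family of such local systems, `ex` the local
exponents, residues modulo `N`. The letters are eigenvectors of the Frobenius and form bases of the `V_i`,
`π` are their eigenvalues, and `Λ` is the set of the eigenvalues of the Frobenius on the cohomology of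
`Z`. For all closed points `b` outside a set of density zero the Frobenius torus of `b` contains a maximal
torus of the group `D` of the automorphisms of the `V_i` which preserve the pairings and have the
determinant one (Serre; Chi; monodromy: Boggi, Looijenga, Landesman, Litt, Sawin), with the trivial
action on the cohomology of `Z`. So, if the product of `α ∈ Λ` and of the eigenvalues of the letters of
a word `w` is a power of `q` (a resonance), then `w` is annihilated by the cocharacters of the
maximal torus of `D` (`TorusInv`); therefore the slope of each letter can be replaced by the average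
slope of its `V_i`, the slope of the determinant divided by the dimension (Chevalley, Weil). This gives
the slopes of `α` at the places given by the unit `t` (`Frobenius`).

**Parts.** After an extension of the coefficients (to `ℂ`) the Chow motive of `C` is the sum of Tate
motives and of motives of rank one `M_x` of the letters `x`, as the Frobenius has different eigenvalues
on the `V_i`, and the projectors are algebraic correspondences. So the cycle map of `Z × C ^ n` is the
direct sum of cycle maps of the parts `h (Z) ⊗ M_w` (up to Tate twists), where `M_w` is the tensor product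
of the motives of the letters of the word `w`. A `Part` consists of the Chow group of codimension
`c`, the cohomology in the degree `2 c`, the cycle map, and the Frobenius operators; it is `Good` if
Q1 and Q2 hold for it. Suppose that the homologically trivial self-correspondences of degree zero of
`Z` are nilpotent (this is known if `Z` is dominated by a product of curves, or finite dimensional in the
sense of Kimura; and they are zero if Q1 holds for `Z × Z`); then the same is true for `Z × C ^ n`, and a
power of the product of the `F - α π_w`, `α ∈ Λ`, annihilates `h (Z) ⊗ M_w`. The Frobenius acts on the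
Chow groups of codimension `c` as `q ^ c`. If the letters of `w` form pairs (a letter and its dual) and
full blocks (all letters of a space `V_(μ j)` once), `M_w` is isomorphic, up to a Tate twist, to the
motive of rank one `M_u` which belongs to the character `u = exAll μ` of a Fermat variety of degree `N`
(Schoen; Brauer; Kimura); let `F c u` be the part `h (Z) ⊗ M_u`, a part of `Z × Y`, `Y` a Fermat variety;
`M_0` is the unit. If the line with the character `u` is algebraic, `M_u` is a Tate motive. The
family of the characters of algebraic lines on Fermat varieties in characteristic `p` is `Admissible`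
(Shioda, Katsura, Aoki; Tate's theorem for Fermat surfaces; specialization of algebraic cycles). These
facts form the structure `CycleMaps`.

**The theorem.** Let `T` be such a system of cycle maps.

(1) If Q1 and Q2 hold for the products of `Z` with Fermat varieties of degree `N` then they hold for
`Z × C ^ n`, for all `n` and all codimensions.

(2) If the covers are unramified and Q1 and Q2 hold for `Z`, then they hold for all `Z × C ^ n`. So, for
almost all unramified covers `C`, **the conjectures Q1 and Q2 for `Z` and `Z × Z` imply Q1 and Q2 for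
`Z × C ^ n`, for all `n`.**

(3) The same is true for ramified covers if the cohomology of `Z` contains no nontrivial Weil numbers of
Fermat type (`IntegralSlopes`: an eigenvalue which has for all `t` the same slope at all places given by
`t` has the same integral slope at all places; for instance if `Z` is a point), and `N ≤ 54`, or
`N` is a `GoodDegree`, or a power of `p` is minus one modulo all odd primes dividing `N`.
-/

namespace Pool.Agent.Results.MP_81632f_ag.RandomCoversTimesVarieties

open Pool.Agent.Q59.GC Pool.Agent.Q59.TC Pool.Agent.Q59.TC.Sys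

/-- The number `q` of elements of the field, the eigenvalues `π` of the letters, the eigenvalues `Λ` of
the Frobenius on the cohomology of `Z`; `HasSlope α t u` means that `α` has the slope `u` at all places
given by the unit `t`. If `α π_w` is a power of `q`, the word `w` is annihilated by the cocharacters of a
maximal torus of `D`, and its letters have the average slopes of their spaces. -/
structure Frobenius {N : ℕ} {I : Type} (S : LocalSystems N I) (p : ℕ) where
  q : ℂ
  π : Letter S.labels → ℂ
  Λ : Finset ℂ
  HasSlope : ℂ → (ZMod N)ˣ → ℚ → Prop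
  torus : ∀ (c s : ℕ) (w : Fin s → Letter S.labels), ∀ α ∈ Λ, α * ∏ k, π (w k) = q ^ c → TorusInv w
  slope : ∀ (c s : ℕ) (w : Fin s → Letter S.labels), ∀ α ∈ Λ, α * ∏ k, π (w k) = q ^ c →
    ∀ t : (ZMod N)ˣ,
      HasSlope α t (c - ∑ k, slope S.labels p (t : ZMod N) (w k).1 / S.labels.dim (w k).1)

/-- An eigenvalue of the cohomology of `Z` which has a slope `u t` at the places given by `t`, for
all `t`, has the same integral slope at all places. -/
def IntegralSlopes {N : ℕ} {I : Type} {S : LocalSystems N I} {p : ℕ} (Φ : Frobenius S p) : Prop :=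
  ∀ α ∈ Φ.Λ, ∀ u : (ZMod N)ˣ → ℚ, (∀ t, Φ.HasSlope α t (u t)) → ∃ m : ℤ, ∀ t, u t = m

/-- The letters of the word `w` form pairs (a letter and its dual) and full blocks of the spaces
`V_(μ j)`. -/
def IsDecomposed {N : ℕ} {I : Type} {S : LocalSystems N I} {s : ℕ} (w : Fin s → Letter S.labels)
    {l r : ℕ} (μ : Fin l → I)
    (e : (Σ j : Fin l, Fin (S.labels.dim (μ j))) ⊕ (Fin r × Fin 2) ≃ Fin s) : Prop :=
  (∀ j a, w (e (Sum.inl ⟨j, a⟩)) = ⟨μ j, a⟩) ∧
    ∀ k, w (e (Sum.inr (k, 1))) = dual (w (e (Sum.inr (k, 0))))

/-- A part of the cycle map: a group of cycles (with coefficients), a cohomology space, the cycle map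
`cl`, and the operators of the Frobenius on both. -/
structure Part where
  CH : Type
  H : Type
  [addCH : AddCommGroup CH]
  [modCH : Module ℂ CH]
  [addH : AddCommGroup H]
  [modH : Module ℂ H]
  cl : CH →ₗ[ℂ] H
  frobCH : CH →ₗ[ℂ] CH
  frobH : H →ₗ[ℂ] H

attribute [instance] Part.addCH Part.modCH Part.addH Part.modH

/-- The questions Q1 and Q2 for a part: the cycle map is injective, its image is the eigenspace of the
Frobenius with the eigenvalue `a = q ^ c`, and this eigenvalue is semisimple. -/
structure Part.Good (P : Part) (a : ℂ) : Prop where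
  injective : Function.Injective P.cl
  image : ∀ y : P.H, P.frobH y = a • y ↔ ∃ x, P.cl x = y
  semisimple : ∀ y : P.H, P.frobH (P.frobH y - a • y) = a • (P.frobH y - a • y) → P.frobH y = a • y

/-- The parts `X c s w` of the words `w` of length `s`, `F c u` of the Fermat characters `u`, and `Z c`,
in codimension `c`. The Frobenius acts on the cycles of codimension `c` as `q ^ c`, and a power of the
product of the `F - α π_w` is zero; the part of a decomposed word is good if those of the Fermat
character are good; the parts of the empty character and of algebraic lines are good if those of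
`Z` are good. -/
structure CycleMaps {N : ℕ} {I : Type} {S : LocalSystems N I} {p : ℕ} (Φ : Frobenius S p)
    (A : ∀ M : ℕ, Multiset (ZMod M) → Prop) where
  X : ℕ → ∀ s : ℕ, (Fin s → Letter S.labels) → Part
  F : ℕ → Multiset (ZMod N) → Part
  Z : ℕ → Part
  scalar : ∀ c s w (x : (X c s w).CH), (X c s w).frobCH x = Φ.q ^ c • x
  nilpotentCH : ∀ c s w, ∃ m : ℕ, Polynomial.aeval (X c s w).frobCH
    ((∏ α ∈ Φ.Λ, (Polynomial.X - Polynomial.C (α * ∏ k, Φ.π (w k)))) ^ m) = 0
  nilpotentH : ∀ c s w, ∃ m : ℕ, Polynomial.aeval (X c s w).frobH
    ((∏ α ∈ Φ.Λ, (Polynomial.X - Polynomial.C (α * ∏ k, Φ.π (w k)))) ^ m) = 0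
  word : ∀ (c s : ℕ) (w : Fin s → Letter S.labels) (l r : ℕ) (μ : Fin l → I)
    (e : (Σ j : Fin l, Fin (S.labels.dim (μ j))) ⊕ (Fin r × Fin 2) ≃ Fin s),
    IsDecomposed w μ e → (∀ c', (F c' (exAll S.labels μ)).Good (Φ.q ^ c')) →
      (X c s w).Good (Φ.q ^ c)
  empty : (∀ c, (Z c).Good (Φ.q ^ c)) → ∀ c, (F c 0).Good (Φ.q ^ c)
  line : ∀ u : Multiset (ZMod N), A N u → (∀ c, (Z c).Good (Φ.q ^ c)) →
    ∀ c, (F c u).Good (Φ.q ^ c)

section

variable {N : ℕ} {I : Type} {S : LocalSystems N I} {p : ℕ} {Φ : Frobenius S p}
  {A : ∀ M : ℕ, Multiset (ZMod M) → Prop}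

/-- Q1 and Q2 hold for `Z × C ^ n`, for all `n` and all codimensions -/
def CycleMaps.HoldsX (T : CycleMaps Φ A) : Prop := ∀ c s w, (T.X c s w).Good (Φ.q ^ c)

/-- Q1 and Q2 hold for `Z` -/
def CycleMaps.HoldsZ (T : CycleMaps Φ A) : Prop := ∀ c, (T.Z c).Good (Φ.q ^ c)

/-- Q1 and Q2 hold for the products of `Z` with Fermat varieties of degree `N` -/
def CycleMaps.HoldsF (T : CycleMaps Φ A) : Prop := ∀ c u, (T.F c u).Good (Φ.q ^ c)

lemma zero_of_eigen {V : Type} [AddCommGroup V] [Module ℂ V] (f : V →ₗ[ℂ] V) (a : ℂ) (P : Polynomial ℂ)
    (hP : P.eval a ≠ 0) (h : Polynomial.aeval f P = 0) {x : V} (hx : f x = a • x) : x = 0 := by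
  have h1 : (Polynomial.aeval f P) x = P.eval a • x := by
    have h2 : Module.End.HasEigenvector f a x ∨ x = 0 := by
      by_cases h0 : x = 0
      · exact Or.inr h0
      · exact Or.inl ⟨Module.End.mem_eigenspace_iff.mpr hx, h0⟩
    rcases h2 with h2 | h2
    · exact Module.End.aeval_apply_of_hasEigenvector h2
    · rw [h2, map_zero, smul_zero]
  rw [h, LinearMap.zero_apply] at h1
  exact (smul_eq_zero.mp h1.symm).resolve_left hP

/-- without a resonance the part of a word is good -/
lemma no_resonance (T : CycleMaps Φ A) (c s : ℕ) (w : Fin s → Letter S.labels)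
    (h : ∀ α ∈ Φ.Λ, α * ∏ k, Φ.π (w k) ≠ Φ.q ^ c) : (T.X c s w).Good (Φ.q ^ c) := by
  have hne : ∀ m : ℕ, ((∏ α ∈ Φ.Λ, (Polynomial.X - Polynomial.C (α * ∏ k, Φ.π (w k)))) ^ m).eval
      (Φ.q ^ c) ≠ 0 := by
    intro m
    rw [Polynomial.eval_pow, Polynomial.eval_prod]
    refine pow_ne_zero _ (Finset.prod_ne_zero_iff.mpr fun α hα => ?_)
    rw [Polynomial.eval_sub, Polynomial.eval_X, Polynomial.eval_C, sub_ne_zero]
    exact (h α hα).symm
  obtain ⟨m1, hm1⟩ := T.nilpotentCH c s w
  obtain ⟨m2, hm2⟩ := T.nilpotentH c s w
  have hCH : ∀ x : (T.X c s w).CH, x = 0 := fun x =>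
    zero_of_eigen _ _ _ (hne m1) hm1 (T.scalar c s w x)
  have hH : ∀ y : (T.X c s w).H, (T.X c s w).frobH y = Φ.q ^ c • y → y = 0 := fun y hy =>
    zero_of_eigen _ _ _ (hne m2) hm2 hy
  refine ⟨fun x y _ => (hCH x).trans (hCH y).symm, fun y => ⟨fun hy => ⟨0, ?_⟩, ?_⟩, fun y hy => ?_⟩
  · rw [map_zero, hH y hy]
  · rintro ⟨x, hx⟩
    rw [← hx, hCH x, map_zero, map_zero, smul_zero]
  · exact sub_eq_zero.mp (hH _ hy)

end

/-- **Beilinson's conjecture, the Tate conjecture and the semisimplicity conjecture for the products of
an arbitrary variety with powers of random covers of pointed curves over finite fields.** -/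
theorem result (p : ℕ) (hp : p.Prime) (N : ℕ) [NeZero N] (hpN : p.Coprime N) (I : Type) [Fintype I]
    (S : LocalSystems N I) (Φ : Frobenius S p) (A : ∀ M : ℕ, Multiset (ZMod M) → Prop)
    (hA : Admissible p A) (T : CycleMaps Φ A) :
    (T.HoldsF → T.HoldsX) ∧
    ((∀ i, S.ex i = 0) → T.HoldsZ → T.HoldsX) ∧
    (IntegralSlopes Φ → (N ≤ 54 ∨ GoodDegree N ∨ ∃ j : ℕ, ∀ r : ℕ, r.Prime → r ∣ N → r ≠ 2 → r ∣ p ^ j + 1) →
      T.HoldsZ → T.HoldsX) := by
  classical
  -- the word of a resonance
  have key : ∀ (c s : ℕ) (w : Fin s → Letter S.labels), (∃ α ∈ Φ.Λ, α * ∏ k, Φ.π (w k) = Φ.q ^ c) →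
      ∃ (l r : ℕ) (μ : Fin l → I)
        (e : (Σ j : Fin l, Fin (S.labels.dim (μ j))) ⊕ (Fin r × Fin 2) ≃ Fin s),
        IsDecomposed w μ e ∧ (IntegralSlopes Φ → (N ≤ 54 ∨ GoodDegree N ∨
          ∃ j : ℕ, ∀ r : ℕ, r.Prime → r ∣ N → r ≠ 2 → r ∣ p ^ j + 1) → A N (exAll S.labels μ)) := by
    rintro c s w ⟨α, hα, hres⟩
    let F : (ZMod N)ˣ → ℚ → Submodule ℂ ℂ := fun t u => if Φ.HasSlope α t u then ⊤ else ⊥
    let x : (Fin s → Letter S.labels) → ℂ := fun v => if v = w then 1 else 0
    have hx : IsTateTensor p F (c : ℤ) x := by
      refine ⟨fun v hv => ?_, fun t v => ?_⟩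
      · have h1 : v = w := by
          by_contra h
          exact hv (if_neg h)
        rw [h1]
        exact Φ.torus c s w α hα hres
      · by_cases h : v = w
        · have h1 := Φ.slope c s w α hα hres t
          rw [← h] at h1
          have h2 : F t (((c : ℤ) : ℚ) - ∑ k, slope S.labels p (t : ZMod N) (v k).1 /
              S.labels.dim (v k).1) = ⊤ := by
            refine if_pos ?_
            push_cast
            exact h1
          rw [h2]
          exact Submodule.mem_top
        · have h1 : x v = 0 := if_neg h
          rw [h1]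
          exact Submodule.zero_mem _
    have hw : x w ≠ 0 := by
      have : x w = 1 := if_pos rfl
      rw [this]
      exact one_ne_zero
    obtain ⟨l, r, μ, e, h1, h2, -, -, h5⟩ := main p hp N hpN I S ℂ F (c : ℤ) s x hx w hw
    refine ⟨l, r, μ, e, ⟨h1, h2⟩, fun hInt hN => ?_⟩
    refine (h5 ?_).2.2 hN A hA
    intro u z hz hzu
    refine hInt α hα u fun t => ?_
    by_contra hcon
    have h6 : F t (u t) = ⊥ := if_neg hcon
    have h7 := hzu t
    rw [h6, Submodule.mem_bot] at h7
    exact hz h7
  refine ⟨fun hF c s w => ?_, fun hex hZ c s w => ?_, fun hInt hN hZ c s w => ?_⟩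
  · by_cases h : ∃ α ∈ Φ.Λ, α * ∏ k, Φ.π (w k) = Φ.q ^ c
    · obtain ⟨l, r, μ, e, hd, -⟩ := key c s w h
      exact T.word c s w l r μ e hd fun c' => hF c' _
    · push Not at h
      exact no_resonance T c s w h
  · by_cases h : ∃ α ∈ Φ.Λ, α * ∏ k, Φ.π (w k) = Φ.q ^ c
    · obtain ⟨l, r, μ, e, hd, -⟩ := key c s w h
      have h0 : exAll S.labels μ = 0 := Finset.sum_eq_zero fun j _ => hex (μ j)
      refine T.word c s w l r μ e hd fun c' => ?_
      rw [h0]
      exact T.empty hZ c'
    · push Not at h
      exact no_resonance T c s w h
  · by_cases h : ∃ α ∈ Φ.Λ, α * ∏ k, Φ.π (w k) = Φ.q ^ c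
    · obtain ⟨l, r, μ, e, hd, hl⟩ := key c s w h
      exact T.word c s w l r μ e hd fun c' => T.line _ (hl hInt hN) hZ c'
    · push Not at h
      exact no_resonance T c s w h

end Pool.Agent.Results.MP_81632f_ag.RandomCoversTimesVarieties
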